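import Mathlib.GroupTheory.Sylow
import Mathlib.Data.Set.Card
import Mathlib.Order.Interval.Finset.Nat

/-!
Height functions on a subgroup whose level sets are invariant under the letters of a word.
-/

namespace Pool.Agent.MP_081e4c_co.AB

open Set

variable {G : Type} [CommGroup G] (d : ℕ → G)

/-- Height functions on `K` for the letters `u + 1, ..., v`. -/
def C (K : Subgroup G) (u v : ℕ) : Set (G → ℕ) :=
  {t | (∀ g, g ∉ K → t g = 0) ∧ (∀ g ∈ K, u ≤ t g ∧ t g ≤ v) ∧
    ∀ i, u < i → i ≤ v → ∀ g ∈ K, (i ≤ t g ↔ i ≤ t (g * d i))}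

/-- Their number. -/
noncomputable def F (K : Subgroup G) (u v : ℕ) : ℤ := (C d K u v).ncard

/-- The subgroup generated by the letters `u + 1, ..., v`. -/
def H (u v : ℕ) : Subgroup G := Subgroup.closure (d '' Ioc u v)

variable {d} {K : Subgroup G} {u v : ℕ}

theorem mem_H {i : ℕ} (h1 : u < i) (h2 : i ≤ v) : d i ∈ H d u v :=
  Subgroup.subset_closure ⟨i, ⟨h1, h2⟩, rfl⟩

theorem H_mono {u' v' : ℕ} (h1 : u' ≤ u) (h2 : v ≤ v') : H d u v ≤ H d u' v' :=
  Subgroup.closure_mono (image_mono (Ioc_subset_Ioc h1 h2))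

theorem H_self (h : v ≤ u) : H d u v = ⊥ := by simp [H, Ioc_eq_empty_of_le h]

theorem H_succ (h : d (v + 1) ∈ H d u v) : H d u (v + 1) ≤ H d u v := by
  refine (Subgroup.closure_le _).2 ?_
  rintro _ ⟨i, ⟨h1, h2⟩, rfl⟩
  rcases h2.lt_or_eq with h2 | rfl
  · exact mem_H h1 (Nat.lt_succ_iff.1 h2)
  · exact h

theorem le_of_C {t : G → ℕ} (h : t ∈ C d K u v) (g : G) : t g ≤ v := by
  by_cases k : g ∈ K
  · exact (h.2.1 g k).2
  · rw [h.1 g k]; exact Nat.zero_le _

theorem C_fin [Finite G] : (C d K u v).Finite :=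
  (Finite.pi' fun _ => finite_Iic v).subset fun _ h g => le_of_C h g

theorem C_mono {a b w : ℕ} (hK : H d a w ≤ K) (h1 : a ≤ b) (h2 : v ≤ w) :
    C d K b v ⊆ C d K a w := by
  intro t h
  refine ⟨h.1, fun g k => ⟨h1.trans (h.2.1 g k).1, (h.2.1 g k).2.trans h2⟩, fun i i1 i2 g k => ?_⟩
  by_cases c1 : b < i
  · by_cases c2 : i ≤ v
    · exact h.2.2 i c1 c2 g k
    · have := le_of_C h g
      have := le_of_C h (g * d i)
      omega
  · have := (h.2.1 g k).1
    have := (h.2.1 _ (K.mul_mem k (hK (mem_H i1 i2)))).1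
    omega

theorem C_shrink {a b w : ℕ} {t : G → ℕ} (h : t ∈ C d K a w) (h1 : a ≤ b) (h2 : v ≤ w)
    (k : ∀ g ∈ K, b ≤ t g ∧ t g ≤ v) : t ∈ C d K b v :=
  ⟨h.1, k, fun i i1 i2 => h.2.2 i (by omega) (by omega)⟩

theorem F_self : F d K u u = 1 := by
  classical
  have : C d K u u = {fun g => if g ∈ K then u else 0} := by
    ext t
    constructor
    · intro h
      funext g
      split_ifs with k
      · exact le_antisymm (h.2.1 g k).2 (h.2.1 g k).1
      · exact h.1 g k
    · rintro rfl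
      exact ⟨fun g k => if_neg k, fun g k => by simp [k], fun i _ _ => by omega⟩
  simp [F, this]

theorem F_empty (h : v < u) : F d K u v = 0 := by
  have : C d K u v = ∅ := eq_empty_of_forall_notMem fun t k => by
    have := k.2.1 1 K.one_mem
    omega
  simp [F, this]

theorem F_nonneg : 0 ≤ F d K u v := Int.natCast_nonneg _

theorem F_mono [Finite G] {a b w : ℕ} (hK : H d a w ≤ K) (h1 : a ≤ b) (h2 : v ≤ w) :
    F d K b v ≤ F d K a w := Nat.cast_le.2 (ncard_le_ncard (C_mono hK h1 h2) C_fin)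

theorem F_super [Finite G] {a b w : ℕ} (hK : H d a w ≤ K) (h1 : a ≤ b) (h2 : v ≤ w) :
    F d K a v + F d K b w ≤ F d K a w + F d K b v := by
  have e := ncard_union_add_ncard_inter (C d K a v) (C d K b w) C_fin C_fin
  have e1 := ncard_le_ncard (union_subset (C_mono hK le_rfl h2) (C_mono hK h1 le_rfl)) C_fin
  have e2 : (C d K a v ∩ C d K b w).ncard ≤ (C d K b v).ncard :=
    ncard_le_ncard (fun t h => C_shrink h.1 h1 le_rfl fun g k =>
      ⟨(h.2.2.1 g k).1, (h.1.2.1 g k).2⟩) C_fin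
  unfold F
  omega

theorem spread {w : ℕ} {t : G → ℕ} (h : t ∈ C d K u w) (hK : H d u w ≤ K) {g : G} (hg : g ∈ K)
    (h1 : v ≤ t g) (m : ℕ) : ∀ a, a + m + 1 = v → u ≤ a → ∀ c ∈ H d a v, a + 1 ≤ t (g * c) := by
  have hv := h1.trans (le_of_C h g)
  have st : ∀ a, u ≤ a → a < v → (∀ c ∈ H d (a + 1) v, a + 1 ≤ t (g * c)) →
      ∀ c ∈ H d a v, a + 1 ≤ t (g * c) := fun a a1 a2 ih c hc => by
    have da : d (a + 1) ∈ K := hK (mem_H (by omega) (by omega))
    have inv : ∀ n : ℤ, ∀ e ∈ K, (a + 1 ≤ t e ↔ a + 1 ≤ t (e * d (a + 1) ^ n)) := fun n => by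
      induction n using Int.induction_on with
      | zero => simp
      | succ n ih =>
        intro e he
        rw [zpow_add_one, ← mul_assoc, ← h.2.2 (a + 1) (by omega) (by omega) _
          (K.mul_mem he (K.zpow_mem da _))]
        exact ih e he
      | pred n ih =>
        intro e he
        rw [h.2.2 (a + 1) (by omega) (by omega) _ (K.mul_mem he (K.zpow_mem da _)), mul_assoc,
          ← zpow_add_one, sub_add_cancel]
        exact ih e he
    rw [H, ← Ioc_union_Ioc_eq_Ioc (Nat.le_succ a) a2, image_union, Subgroup.closure_union,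
      show Ioc a a.succ = {a + 1} by ext i; simp only [mem_Ioc, mem_singleton_iff]; omega,
      image_singleton] at hc
    obtain ⟨y, hy, z, hz, rfl⟩ := Subgroup.mem_sup.1 hc
    obtain ⟨n, rfl⟩ := Subgroup.mem_closure_singleton.1 hy
    rw [mul_comm _ z, ← mul_assoc]
    exact (inv n _ (K.mul_mem hg (hK (H_mono (by omega) hv hz)))).1 (ih z hz)
  induction m with
  | zero =>
    intro a e a1
    refine st a a1 (by omega) fun c hc => ?_
    rw [H_self (by omega), Subgroup.mem_bot] at hc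
    rw [hc, mul_one]
    omega
  | succ m ih =>
    intro a e a1
    exact st a a1 (by omega) fun c hc => (Nat.le_succ _).trans (ih (a + 1) (by omega) (by omega) c hc)

theorem cut [Finite G] {r w : ℕ} (hK : H d u w ≤ K) (h1 : u ≤ r) (h2 : r ≤ v) (h3 : v ≤ w)
    (hg : K ≤ H d r (v + 1)) :
    F d K u w - F d K u v = F d K (r + 1) w - F d K (r + 1) v := by
  have hK' : H d (r + 1) w ≤ K := (H_mono (by omega) le_rfl).trans hK
  have e : C d K u w \ C d K u v = C d K (r + 1) w \ C d K (r + 1) v := by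
    ext t
    constructor
    · rintro ⟨k1, k2⟩
      obtain ⟨g, g1, g2⟩ : ∃ g ∈ K, v + 1 ≤ t g := by
        by_contra k
        exact k2 (C_shrink k1 le_rfl h3 fun g hg => ⟨(k1.2.1 g hg).1, by
          by_contra k'
          exact k ⟨g, hg, by omega⟩⟩)
      refine ⟨C_shrink k1 (by omega) le_rfl fun e he => ⟨?_, le_of_C k1 e⟩, fun k => ?_⟩
      · have := spread k1 hK g1 g2 (v - r) r (by omega) h1 (g⁻¹ * e)
          (hg (K.mul_mem (K.inv_mem g1) he))
        rwa [mul_inv_cancel_left] at this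
      · have := le_of_C k g
        omega
    · rintro ⟨k1, k2⟩
      exact ⟨C_mono hK (by omega) le_rfl k1, fun k => k2 (C_shrink k1 le_rfl h3 fun g hg =>
        ⟨(k1.2.1 g hg).1, le_of_C k g⟩)⟩
  have e1 := ncard_sdiff_add_ncard_of_subset (C_mono (v := v) hK le_rfl h3) C_fin
  have e2 := ncard_sdiff_add_ncard_of_subset (C_mono (v := v) hK' le_rfl h3) C_fin
  rw [e] at e1
  unfold F
  omega

theorem F_sq {K' : Subgroup G} (h1 : K' ≤ K) (h2 : K'.relIndex K = 2) (hK : H d u v ≤ K') :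
    F d K u v = F d K' u v ^ 2 := by
  classical
  obtain ⟨c, hc, hx⟩ := Subgroup.relIndex_eq_two_iff.1 h2
  have n1 : ∀ g ∈ K', g * c ∉ K' := fun g hg k => by
    rcases hx g (h1 hg) with e | e
    · exact e.2 hg
    · exact e.2 k
  have n2 : ∀ g ∈ K, g ∉ K' → g * c ∈ K' := fun g hg k => by
    rcases hx g hg with e | e
    · exact e.1
    · exact absurd e.1 k
  have n3 : ∀ g, g * c ∈ K' → g ∈ K := fun g k => by
    simpa using K.mul_mem (h1 k) (K.inv_mem hc)
  have e : C d K u v = (fun p : (G → ℕ) × (G → ℕ) => fun g => p.1 g + p.2 (g * c)) ''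
      (C d K' u v ×ˢ C d K' u v) := by
    ext t
    constructor
    · intro h
      have aux : ∀ e ∈ K, (fun g => if g ∈ K' then t (g * e) else 0) ∈ C d K' u v := fun e he =>
        ⟨fun g k => if_neg k, fun g k => by
          simpa only [if_pos k] using h.2.1 _ (K.mul_mem (h1 k) he), fun i i1 i2 g k => by
          simp only [if_pos k, if_pos (K'.mul_mem k (hK (mem_H i1 i2)))]
          rw [mul_right_comm]
          exact h.2.2 i i1 i2 _ (K.mul_mem (h1 k) he)⟩
      refine ⟨(_, _), ⟨aux 1 K.one_mem, aux c⁻¹ (K.inv_mem hc)⟩, funext fun g => ?_⟩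
      change (if g ∈ K' then t (g * 1) else 0) + (if g * c ∈ K' then t (g * c * c⁻¹) else 0) = t g
      rw [mul_one, mul_inv_cancel_right]
      by_cases k : g ∈ K'
      · rw [if_pos k, if_neg (n1 g k), add_zero]
      · rw [if_neg k, zero_add]
        split_ifs with k'
        · rfl
        · exact (h.1 g fun k2 => k' (n2 g k2 k)).symm
    · rintro ⟨⟨t1, t2⟩, ⟨a, b⟩, rfl⟩
      simp only at a b
      refine ⟨fun g k => ?_, fun g k => ?_, fun i i1 i2 g k => ?_⟩
      · simp only
        rw [a.1 g fun k' => k (h1 k'), b.1 _ fun k' => k (n3 g k')]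
      · simp only
        by_cases k' : g ∈ K'
        · rw [b.1 _ (n1 g k')]; exact a.2.1 g k'
        · rw [a.1 g k', zero_add]; exact b.2.1 _ (n2 g k k')
      · simp only
        have di := hK (mem_H i1 i2)
        by_cases k' : g ∈ K'
        · rw [b.1 _ (n1 g k'), b.1 _ (n1 _ (K'.mul_mem k' di))]; exact a.2.2 i i1 i2 g k'
        · rw [a.1 g k', a.1 (g * d i) fun k2 => k' ((K'.mul_mem_cancel_right di).1 k2), zero_add,
            zero_add, mul_right_comm]
          exact b.2.2 i i1 i2 _ (n2 g k k')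
  rw [F, F, e, InjOn.ncard_image, ncard_prod]
  · push_cast; ring
  · rintro ⟨t1, t2⟩ ⟨a, b⟩ ⟨s1, s2⟩ ⟨a', b'⟩ e
    simp only at a b a' b' e
    refine Prod.ext (funext fun g => ?_) (funext fun g => ?_)
    · by_cases k : g ∈ K'
      · have := congrFun e g
        simp only [b.1 _ (n1 g k), b'.1 _ (n1 g k)] at this
        exact this
      · exact (a.1 g k).trans (a'.1 g k).symm
    · by_cases k : g ∈ K'
      · have := congrFun e (g * c⁻¹)
        have k' : g * c⁻¹ ∉ K' := fun k2 => n1 _ k2 (by simpa using k)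
        simp only [a.1 _ k', a'.1 _ k', zero_add, inv_mul_cancel_right] at this
        exact this
      · exact (b.1 g k).trans (b'.1 g k).symm

theorem half [Finite G] {j : ℕ} {S : Subgroup G} (hK : Nat.card K = 2 ^ (j + 1)) (h1 : S ≤ K)
    (h2 : ¬K ≤ S) : ∃ K' : Subgroup G, S ≤ K' ∧ K' ≤ K ∧ Nat.card K' = 2 ^ j ∧
      K'.relIndex K = 2 := by
  obtain ⟨n, n1, n2⟩ := (Nat.dvd_prime_pow Nat.prime_two).1 (hK ▸ Subgroup.card_dvd_of_le h1)
  have n3 : n ≤ j := by
    by_contra k
    exact h2 (Subgroup.eq_of_le_of_card_ge h1 (by rw [hK, n2, show n = j + 1 by omega])).ge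
  obtain ⟨L, l1, l2⟩ := Sylow.exists_subgroup_card_pow_prime_le (G := K) 2 (m := j)
    (by rw [hK]; exact pow_dvd_pow 2 (Nat.le_succ j)) (S.subgroupOf K)
    (by rw [← n2]; exact Nat.card_congr (Subgroup.subgroupOfEquivOfLe h1).toEquiv) n3
  refine ⟨L.map K.subtype, ?_, Subgroup.map_subtype_le L, ?_, ?_⟩
  · rw [← Subgroup.map_subgroupOf_eq_of_le h1]
    exact Subgroup.map_mono l2
  · rw [Subgroup.card_map_of_injective K.subtype_injective, l1]
  · have := L.card_mul_index
    rw [l1, hK, pow_succ] at this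
    rw [Subgroup.relIndex, Subgroup.subgroupOf, Subgroup.comap_map_eq_self_of_injective
      K.subtype_injective]
    exact Nat.eq_of_mul_eq_mul_left (by positivity) this

end Pool.Agent.MP_081e4c_co.AB
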