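import Mathlib.Algebra.Group.Defs
import Pool.Agent.MP_081e4c_co.Defs

namespace Pool.Agent.MP_081e4c_co

/-- The Irving-Leather numbers: `il k` is the number `y n` for `n = 2 ^ k`. -/
def il : ℕ → ℤ
  | 0 => 1
  | 1 => 2
  | k + 2 => 3 * il (k + 1) ^ 2 - 2 * il k ^ 4

/-- Men and women can both be labelled by the elements of one abelian group so that all ranks
are invariant under simultaneous translation of the man and the woman. -/
def AbelianSymmetric {n : ℕ} (pm pw : Fin n → Equiv.Perm (Fin n)) : Prop :=
  ∃ (G : Type) (_ : CommGroup G) (em ew : G ≃ Fin n), ∀ g h c : G,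
    pm (em (g * c)) (ew (h * c)) = pm (em g) (ew h) ∧
    pw (ew (h * c)) (em (g * c)) = pw (ew h) (em g)

end Pool.Agent.MP_081e4c_co
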