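import Pool.Agent.MP_081e4c_co.AB.Num
import Pool.Agent.MP_081e4c_co.AB.Cnt

/-!
The ruler word is optimal: upper bound for all words, lower bound for ruler words.
-/

namespace Pool.Agent.MP_081e4c_co.AB

variable {G : Type} [CommGroup G] [Finite G] {d : ℕ → G} {L : ℕ}

/-- The increment bound for the subgroup `K` and windows satisfying `P`. -/
def Inc (d : ℕ → G) (L : ℕ) (K : Subgroup G) (Z : ℕ → ℤ) (P : ℕ → ℕ → Prop) : Prop :=
  ∀ T u p σ, u ≤ p → p + T ≤ L → H d u (p + T) ≤ K → (T ≠ 0 → d (p + 1) ∉ H d u p) →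
    p - u + 1 ≤ σ → P u (p + T) → F d K u (p + T) - F d K u p ≤ Z (σ + T) - Z σ

/-- Windows are shorter than the subgroups they generate. -/
def Len (d : ℕ → G) (L : ℕ) : Prop := ∀ a b, a ≤ b → b ≤ L → b - a + 1 ≤ Nat.card (H d a b)

omit [Finite G] in
theorem Len.new (hl : Len d L) {a : ℕ} (h : a + 1 ≤ L) : d (a + 1) ∉ H d a a := fun k => by
  have e := hl a (a + 1) (by omega) h
  rw [le_bot_iff.1 ((H_succ k).trans (H_self le_rfl).le), Subgroup.card_bot] at e
  omega

theorem inc_all (hl : Len d L) {K : Subgroup G} {Z : ℕ → ℤ} (hZ : ∀ σ, Z σ + 1 ≤ Z (σ + 1))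
    (h : Inc d L K Z fun u v => ¬K ≤ H d u v) : Inc d L K Z fun _ _ => True := by
  classical
  intro T
  induction T using Nat.strong_induction_on with
  | _ T ih =>
    have A : ∀ u p σ, u ≤ p → p + T ≤ L → H d u (p + T) ≤ K → T ≠ 0 → d (p + 1) ∉ H d u p →
        p - u + 1 ≤ σ → ¬K ≤ H d u (p + 1) →
        F d K u (p + T) - F d K u p ≤ Z (σ + T) - Z σ := by
      intro u p σ h1 h2 h3 h0 h4 h5 h6
      have e1 : 1 ≤ Nat.findGreatest (fun S => ¬K ≤ H d u (p + S)) T :=
        Nat.le_findGreatest (by omega) h6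
      have e2 := Nat.findGreatest_le (P := fun S => ¬K ≤ H d u (p + S)) T
      have e3 := Nat.findGreatest_spec (P := fun S => ¬K ≤ H d u (p + S))
        (show 1 ≤ T by omega) h6
      have e4 := fun k => Nat.findGreatest_is_greatest (P := fun S => ¬K ≤ H d u (p + S))
        (n := T) (k := k)
      generalize Nat.findGreatest (fun S => ¬K ≤ H d u (p + S)) T = S at e1 e2 e3 e4
      obtain ⟨R, rfl⟩ := Nat.exists_eq_add_of_le e2
      have k1 := h S u p σ h1 (by omega) ((H_mono le_rfl (by omega)).trans h3) (fun _ => h4) h5 e3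
      have k2 := ih R (by omega) u (p + S) (σ + S) (by omega) (by omega) (by rwa [add_assoc])
        (fun r k => e3 ((not_not.1 (e4 (S + 1) (by omega) (by omega))).trans (H_succ k)))
        (by omega) trivial
      rw [add_assoc, add_assoc] at k2
      linarith
    intro u p σ h1 h2 h3 h4 h5 _
    by_cases h0 : T = 0
    · simp [h0]
    by_cases c : K ≤ H d u (p + 1)
    · have e1 : u ≤ Nat.findGreatest (fun r => K ≤ H d r (p + 1)) p := Nat.le_findGreatest h1 c
      have e2 := Nat.findGreatest_le (P := fun r => K ≤ H d r (p + 1)) p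
      have e3 := Nat.findGreatest_spec (P := fun r => K ≤ H d r (p + 1)) h1 c
      have e4 := fun k => Nat.findGreatest_is_greatest (P := fun r => K ≤ H d r (p + 1))
        (n := p) (k := k)
      generalize Nat.findGreatest (fun r => K ≤ H d r (p + 1)) p = r at e1 e2 e3 e4
      have h3' : H d (r + 1) (p + T) ≤ K := (H_mono (by omega) le_rfl).trans h3
      rw [cut h3 e1 e2 (by omega) e3]
      rcases e2.lt_or_eq with e2 | rfl
      · exact A (r + 1) p σ e2 h2 h3' h0 (fun k => h4 h0 (H_mono (by omega) le_rfl k)) (by omega)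
          (e4 (r + 1) (by omega) e2)
      · obtain ⟨R, rfl⟩ := Nat.exists_eq_add_of_le' (show 1 ≤ T by omega)
        have k2 := ih R (by omega) (r + 1) (r + 1) (σ + 1) le_rfl (by omega)
          (by rwa [show r + 1 + R = r + (R + 1) by ring]) (fun _ => hl.new (by omega)) (by omega)
          trivial
        rw [F_self, show r + 1 + R = r + (R + 1) by ring,
          show σ + 1 + R = σ + (R + 1) by ring] at k2
        rw [F_empty (Nat.lt_succ_self r)]
        linarith [hZ σ]
    · exact A u p σ h1 h2 h3 h0 (h4 h0) h5 c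

omit [Finite G] in
theorem Inc.le (hl : Len d L) {K : Subgroup G} {Z : ℕ → ℤ} (h : Inc d L K Z fun _ _ => True)
    (h1 : Z 1 = 1) {u v : ℕ} (k1 : u ≤ v) (k2 : v ≤ L) (k3 : H d u v ≤ K) :
    F d K u v ≤ Z (v - u + 1) := by
  obtain ⟨T, rfl⟩ := Nat.exists_eq_add_of_le k1
  have := h T u u 1 le_rfl k2 k3 (fun _ => hl.new (by omega)) (by omega) trivial
  rw [F_self, h1] at this
  rw [show u + T - u + 1 = 1 + T by omega]
  linarith

theorem inc (hl : Len d L) (j : ℕ) : ∀ K : Subgroup G, Nat.card K = 2 ^ (j + 1) →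
    Inc d L K (ZZ j) fun _ _ => True := by
  induction j with
  | zero =>
    intro K hK
    refine inc_all hl (good 0).step fun T u p σ h1 h2 h3 h4 h5 h6 => ?_
    by_cases h0 : T = 0
    · simp [h0]
    · have := hl u (p + T) (by omega) h2
      exact absurd (Subgroup.eq_of_le_of_card_ge h3 (by rw [hK]; omega)).ge h6
  | succ j ih =>
    intro K hK
    refine inc_all hl (good _).step fun T u p σ h1 h2 h3 h4 h5 h6 => ?_
    by_cases h0 : T = 0
    · simp [h0]
    obtain ⟨K', a1, a2, a3, a4⟩ := half hK h3 h6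
    have a5 : H d u p ≤ K' := (H_mono le_rfl (by omega)).trans a1
    obtain ⟨K'', b1, -, b3, -⟩ := half a3 a5 fun k =>
      h4 h0 (k (a1 (mem_H (by omega) (by omega))))
    have l1 := (hl u p h1 (by omega)).trans (Subgroup.card_le_of_le b1)
    have l2 := (hl u (p + T) (by omega) h2).trans (Subgroup.card_le_of_le a1)
    have I := ih K' a3
    rw [F_sq a2 a4 a1, F_sq a2 a4 a5]
    refine key (good j) (ω := p - u + 1) (by omega) (by rw [a3, pow_succ'] at l2; omega) F_nonneg
      (F_mono a1 le_rfl (by omega)) (I.le hl (good j).one h1 (by omega) a5) ?_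
      (fun τ k => I T u p τ h1 h2 a1 h4 k trivial) σ h5
    rw [show p - u + 1 + T = p + T - u + 1 by omega]
    exact I.le hl (good j).one (by omega) h2 a1

theorem upper (hl : Len d L) {k : ℕ} (hG : Nat.card G = 2 ^ k) : F d ⊤ 0 L ≤ il k := by
  have l := (hl 0 L (Nat.zero_le _) le_rfl).trans (Subgroup.card_le_of_le le_top)
  rw [Subgroup.card_top, hG] at l
  rcases k with _ | j
  · rw [show L = 0 by omega, F_self]; rfl
  · refine ((inc hl j ⊤ (by rw [Subgroup.card_top, hG])).le hl (good j).one (Nat.zero_le _) le_rfl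
      le_top).trans (((good j).mono ?_).trans (ZZ_il j).2.le)
    rwa [pow_succ'] at l

theorem lower (hl : Len d L)
    (hr : ∀ j a, 2 ^ j ∣ a → Nat.card (H d a (a + (2 ^ (j + 1) - 1))) ≤ 2 ^ (j + 1)) (j : ℕ) :
    ∀ (K : Subgroup G) (u : ℕ), Nat.card K = 2 ^ (j + 1) → 2 ^ j ∣ u →
      u + (2 ^ (j + 1) - 1) ≤ L → H d u (u + (2 ^ (j + 1) - 1)) ≤ K →
      il (j + 1) ≤ F d K u (u + (2 ^ (j + 1) - 1)) := by
  induction j with
  | zero =>
    intro K u _ _ _ h
    have := F_super (b := u + 1) (v := u) h (by omega) (by omega)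
    rw [F_self, F_empty (Nat.lt_succ_self u), show u + (2 ^ (0 + 1) - 1) = u + 1 from rfl,
      F_self] at this
    change (2 : ℤ) ≤ F d K u (u + 1)
    linarith
  | succ j ih =>
    intro K u hK h1 h2 h3
    have g := good j
    have p := g.pos
    have e1 : 2 ^ (j + 1) = 2 * 2 ^ j := pow_succ' 2 j
    have e2 : 2 ^ (j + 1 + 1) = 4 * 2 ^ j := by ring
    have W : ∀ m, m ≤ 2 → il (j + 1) ^ 2 ≤ F d K (u + m * 2 ^ j) (u + m * 2 ^ j + (2 ^ (j + 1) - 1)) ∧
        F d K (u + m * 2 ^ j) (u + m * 2 ^ j + (2 ^ j - 1)) ≤ il j ^ 4 := fun m hm => by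
      have m1 := Nat.mul_le_mul_right (2 ^ j) hm
      have dv : 2 ^ j ∣ u + m * 2 ^ j :=
        dvd_add ((pow_dvd_pow 2 (Nat.le_succ j)).trans h1) (dvd_mul_left _ _)
      generalize m * 2 ^ j = M at m1 dv
      have s1 : H d (u + M) (u + M + (2 ^ (j + 1) - 1)) ≤ K :=
        (H_mono (by omega) (by omega)).trans h3
      obtain ⟨K', a1, a2, a3, a4⟩ := half hK s1 fun k => by
        have := (Subgroup.card_le_of_le k).trans (hr j _ dv)
        omega
      have a5 : H d (u + M) (u + M + (2 ^ j - 1)) ≤ K' := (H_mono le_rfl (by omega)).trans a1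
      have i1 := ih K' _ a3 dv (by omega) a1
      have i2 := (inc hl j K' a3).le hl g.one (by omega) (by omega) a5
      rw [show u + M + (2 ^ j - 1) - (u + M) + 1 = 2 ^ j by omega, (ZZ_il j).1] at i2
      rw [F_sq a2 a4 a1, F_sq a2 a4 a5, show il j ^ 4 = (il j ^ 2) ^ 2 by ring]
      exact ⟨pow_le_pow_left₀ ((ZZ_il j).2 ▸ g.nonneg _) i1 2, pow_le_pow_left₀ F_nonneg i2 2⟩
    obtain ⟨w0, -⟩ := W 0 (by omega)
    obtain ⟨w1, o1⟩ := W 1 (by omega)
    obtain ⟨w2, o2⟩ := W 2 le_rfl
    rw [e2] at h3 ⊢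
    rw [e1] at w0 w1 w2
    generalize 2 ^ j = h at *
    have s1 := F_super (a := u) (b := u + h) (v := u + (2 * h - 1)) (w := u + (3 * h - 1))
      ((H_mono le_rfl (by omega)).trans h3) (by omega) (by omega)
    have s2 := F_super (b := u + 2 * h) (v := u + (3 * h - 1)) h3 (by omega) (by omega)
    rw [zero_mul, add_zero] at w0
    rw [one_mul, show u + h + (2 * h - 1) = u + (3 * h - 1) by omega] at w1
    rw [one_mul, show u + h + (h - 1) = u + (2 * h - 1) by omega] at o1
    rw [show u + 2 * h + (2 * h - 1) = u + (4 * h - 1) by omega] at w2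
    rw [show u + 2 * h + (h - 1) = u + (3 * h - 1) by omega] at o2
    rw [il]
    linarith

end Pool.Agent.MP_081e4c_co.AB
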