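import Mathlib.Data.Finset.Sort
import Mathlib.Data.ZMod.Basic
import Mathlib.Algebra.Group.PUnit
import Pool.Agent.MP_081e4c_co.AB.Up

/-!
Stable matchings of translation invariant instances and height functions.
-/

namespace Pool.Agent.MP_081e4c_co.AB

open Set

variable {G : Type} [CommGroup G]

/-- Stability for the rank functions `α` (men) and `β` (women) of the difference. -/
def St (α β : G → ℕ) (μ : G ≃ G) : Prop :=
  ∀ g h, α (h / g) < α (μ g / g) → β (h / g) < β (h / μ.symm h) → False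

/-- The differences that give stable translations. -/
def Par (α β : G → ℕ) (y : G) : Prop := ∀ z, α z < α y → β z < β y → False

/-- The word of a sequence. -/
def wd (x : ℕ → G) (i : ℕ) : G := x (i - 1) / x i

theorem div_mem (x : ℕ → G) (a : ℕ) {i : ℕ} (h : a ≤ i) : x a / x i ∈ H (wd x) a i := by
  induction h with
  | refl => simp
  | step h ih =>
    rw [← div_mul_div_cancel (x a) (x _)]
    exact Subgroup.mul_mem _ (H_mono le_rfl (Nat.le_succ _) ih)
      (mem_H (d := wd x) (Nat.lt_succ_of_le h) le_rfl)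

theorem len [Finite G] {x : ℕ → G} {L : ℕ} (hx : InjOn x (Iic L)) : Len (wd x) L := by
  intro a b h1 h2
  have := Nat.card_le_card_of_injective (α := Fin (b - a + 1)) (β := H (wd x) a b)
    (fun i => ⟨x a / x (a + i), H_mono le_rfl (by omega) (div_mem x a (Nat.le_add_right _ _))⟩)
    fun i j e => by
      have := hx (show a + i ≤ L by omega) (show a + j ≤ L by omega)
        (div_right_injective (congrArg Subtype.val e))
      exact Fin.ext (by omega)
  simpa using this

omit [CommGroup G] in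
theorem exists_par {α β : G → ℕ} (y : G) : ∃ z, Par α β z ∧ α z ≤ α y ∧ β z ≤ β y := by
  induction h : α y using Nat.strong_induction_on generalizing y with
  | _ n ih =>
    by_cases k : Par α β y
    · exact ⟨y, k, h.le, le_rfl⟩
    · simp only [Par, not_forall] at k
      obtain ⟨z, k1, k2, -⟩ := k
      obtain ⟨w, w1, w2, w3⟩ := ih _ (h ▸ k1) z rfl
      exact ⟨w, w1, by omega, by omega⟩

omit [CommGroup G] in
theorem perm_iff [Finite G] (π : G ≃ G) {B : G → Prop} (h : ∀ g, B g → B (π g)) (g : G) :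
    B g ↔ B (π g) := by
  refine ⟨h g, fun k => ?_⟩
  have := ((toFinite {g | B g}).injOn_iff_bijOn_of_mapsTo (f := π) h).1 π.injective.injOn
  obtain ⟨e, e1, e2⟩ := this.surjOn k
  exact π.injective e2 ▸ e1

section
variable [Finite G] {α β : G → ℕ} (ha : Function.Injective α) (hb : Function.Injective β)
  {μ : G ≃ G} (h : St α β μ)
include ha hb h

theorem worse {y : G} (hy : Par α β y) (g : G) :
    (α y < α (μ g / g) ↔ α y < α (μ (μ.symm (g * y)) / μ.symm (g * y))) ∧
    (α y ≤ α (μ g / g) ↔ α y ≤ α (μ (μ.symm (g * y)) / μ.symm (g * y))) ∧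
    (α y < α (μ g / g) → β (μ g / g) < β y) := by
  have a : ∀ g, α y < α (μ g / g) → β (μ (μ.symm (g * y)) / μ.symm (g * y)) < β y := fun g k => by
    have e := h g (g * y)
    rw [mul_div_cancel_left] at e
    rw [μ.apply_symm_apply]
    refine lt_of_le_of_ne (not_lt.1 (e k)) fun e' => ?_
    have e1 := hb e'
    rw [div_eq_iff_eq_mul, mul_comm, mul_right_inj, μ.eq_symm_apply] at e1
    rw [e1, mul_div_cancel_right] at k
    exact k.false
  have b := perm_iff ((Equiv.mulRight y).trans μ.symm) (B := fun g => α y < α (μ g / g))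
    fun g k => lt_of_le_of_ne (not_lt.1 fun e => hy _ e (a g k)) fun e =>
      (a g k).ne (congrArg β (ha e).symm)
  have c := perm_iff ((Equiv.mulRight y).trans μ.symm) (B := fun g => α y ≤ α (μ g / g))
    fun g k => by
      rcases k.lt_or_eq with k | k
      · exact ((b g).1 k).le
      · have e : μ.symm (g * y) = g := by rw [μ.symm_apply_eq, ha k, mul_div_cancel]
        change α y ≤ α (μ (μ.symm (g * y)) / μ.symm (g * y))
        rw [e]
        exact k.le
  refine ⟨b g, c g, fun k => ?_⟩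
  have e : μ.symm (μ g / y * y) = g := by rw [div_mul_cancel, μ.symm_apply_apply]
  have := a (μ g / y) ((b _).2 (by
    change α y < α (μ (μ.symm (μ g / y * y)) / μ.symm (μ g / y * y))
    rwa [e]))
  rwa [e] at this

theorem par_of_st (g : G) : Par α β (μ g / g) := fun z k1 k2 => by
  obtain ⟨w, w1, w2, w3⟩ := exists_par (α := α) (β := β) z
  have := (worse ha hb h w1 g).2.2 (by omega)
  omega

end

omit [CommGroup G] in
theorem enum [Finite G] {α : G → ℕ} (ha : Function.Injective α) (P : G → Prop) (h : ∃ y, P y) :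
    ∃ (L : ℕ) (x : ℕ → G), (∀ i j, i ≤ L → j ≤ L → (α (x i) ≤ α (x j) ↔ i ≤ j)) ∧
      (∀ i ≤ L, P (x i)) ∧ ∀ y, P y → ∃ i ≤ L, x i = y := by
  classical
  let _ := LinearOrder.lift' α ha
  obtain ⟨L, hL⟩ : ∃ L, (toFinite {y | P y}).toFinset.card = L + 1 :=
    Nat.exists_eq_succ_of_ne_zero (Finset.card_pos.2 ((toFinite _).toFinset_nonempty.2 h)).ne'
  let e := (toFinite {y | P y}).toFinset.orderIsoOfFin hL
  refine ⟨L, fun i => e (Fin.ofNat _ i), fun i j hi hj => ?_, fun i _ => ?_, fun y hy => ?_⟩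
  · refine (e.le_iff_le (x := Fin.ofNat _ i) (y := Fin.ofNat _ j)).trans ?_
    rw [Fin.le_def, Fin.val_ofNat, Fin.val_ofNat, Nat.mod_eq_of_lt (by omega),
      Nat.mod_eq_of_lt (by omega)]
  · exact (toFinite {y | P y}).mem_toFinset.1 (e (Fin.ofNat _ i)).2
  · obtain ⟨i, hi⟩ := e.surjective ⟨y, by simpa using hy⟩
    exact ⟨i, by omega, by simp [hi]⟩

theorem st_le [Finite G] {α β : G → ℕ} (ha : Function.Injective α) (hb : Function.Injective β)
    {k : ℕ} (hG : Nat.card G = 2 ^ k) : (Nat.card {μ : G ≃ G // St α β μ} : ℤ) ≤ il k := by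
  obtain ⟨L, x, x1, x2, x3⟩ := enum ha (Par α β) ((exists_par 1).imp fun _ h => h.1)
  have hx : InjOn x (Iic L) := fun i hi j hj e =>
    le_antisymm ((x1 i j hi hj).1 (e ▸ le_rfl)) ((x1 j i hj hi).1 (e ▸ le_rfl))
  refine le_trans ?_ (upper (len hx) hG)
  choose t t1 t2 using fun (μ : {μ : G ≃ G // St α β μ}) g => x3 _ (par_of_st ha hb μ.2 g)
  rw [F, Nat.cast_le, ← Nat.card_coe_set_eq]
  have : Finite (C (wd x) ⊤ 0 L) := C_fin
  refine Nat.card_le_card_of_injective (fun μ => ⟨t μ, fun g k => absurd (Subgroup.mem_top g) k,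
    fun g _ => ⟨Nat.zero_le _, t1 μ g⟩, fun i i1 i2 g _ => ?_⟩) fun μ ν e => ?_
  · have a := (worse ha hb μ.2 (x2 (i - 1) (by omega)) g).1
    have b := (worse ha hb μ.2 (x2 i i2) (g * wd x i)).2.1
    rw [show g * wd x i * x i = g * x (i - 1) by rw [wd, mul_assoc, div_mul_cancel]] at b
    rw [← t2, ← t2, ← not_le, ← not_le, x1 _ _ (t1 _ _) (by omega),
      x1 _ _ (t1 _ _) (by omega)] at a
    rw [← t2, ← t2, x1 _ _ i2 (t1 _ _), x1 _ _ i2 (t1 _ _)] at b
    omega
  · refine Subtype.ext (Equiv.ext fun g => div_left_injective (b := g) ?_)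
    have : t μ = t ν := congrArg Subtype.val e
    simp only
    rw [← t2, ← t2, this]

theorem le_st [Finite G] {α β : G → ℕ} {x : ℕ → G} {L : ℕ} (hs : ∀ y, ∃ i ≤ L, x i = y)
    (ha : ∀ i ≤ L, α (x i) = i) (hb : ∀ i ≤ L, β (x i) = L - i) :
    F (wd x) ⊤ 0 L ≤ Nat.card {μ : G ≃ G // St α β μ} := by
  have dn : ∀ t ∈ C (wd x) ⊤ 0 L, ∀ h b s, b < s → s ≤ L → s ≤ t (h / x s) →
      b + 1 ≤ t (h / x b) := fun t ht h b s k => by
    induction k with
    | refl =>
      intro k1 k2
      rw [ht.2.2 (b + 1) (by omega) k1 _ (Subgroup.mem_top _), wd, Nat.add_sub_cancel,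
        div_mul_div_cancel]
      exact k2
    | @step s k ih =>
      intro k1 k2
      refine ih (by omega) ((Nat.le_succ s).trans ?_)
      rw [ht.2.2 (s + 1) (by omega) k1 _ (Subgroup.mem_top _), wd, Nat.add_sub_cancel,
        div_mul_div_cancel]
      exact k2
  have inj : ∀ t ∈ C (wd x) ⊤ 0 L, Function.Injective fun g => g * x (t g) := fun t ht => by
    have key : ∀ g g', g * x (t g) = g' * x (t g') → ¬t g < t g' := fun g g' e k => by
      have := dn t ht (g * x (t g)) _ _ k (le_of_C ht g') (by rw [e, mul_div_cancel_right])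
      rw [mul_div_cancel_right] at this
      omega
    intro g g' e
    have e1 : t g = t g' := le_antisymm (not_lt.1 (key g' g e.symm)) (not_lt.1 (key g g' e))
    simp only [e1] at e
    exact mul_right_cancel e
  rw [F, Nat.cast_le, ← Nat.card_coe_set_eq]
  refine Nat.card_le_card_of_injective (fun t => ⟨Equiv.ofBijective _
    (Finite.injective_iff_bijective.1 (inj t.1 t.2)), fun g h k1 k2 => ?_⟩) fun t s e => ?_
  · obtain ⟨g', rfl⟩ := (Finite.injective_iff_surjective.1 (inj t.1 t.2)) h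
    obtain ⟨i, i1, i2⟩ := hs (g' * x (t.1 g') / g)
    rw [Equiv.ofBijective_symm_apply_apply] at k2
    rw [Equiv.ofBijective_apply] at k1
    simp only at k1 k2
    rw [← i2, mul_div_cancel_left] at k1 k2
    rw [ha i i1, ha _ (le_of_C t.2 g)] at k1
    rw [hb i i1, hb _ (le_of_C t.2 g')] at k2
    have := dn t.1 t.2 (g' * x (t.1 g')) (t.1 g') i (by omega) i1 (by
      rw [i2, div_div_cancel]; exact k1.le)
    rw [mul_div_cancel_right] at this
    omega
  · refine Subtype.ext (funext fun g => ?_)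
    have e1 : g * x (t.1 g) = g * x (s.1 g) := DFunLike.congr_fun (congrArg Subtype.val e) g
    rw [← ha _ (le_of_C t.2 g), mul_left_cancel e1, ha _ (le_of_C s.2 g)]

theorem ruler (k : ℕ) : ∃ (G : Type) (_ : CommGroup G) (_ : Finite G) (x : ℕ → G),
    Nat.card G = 2 ^ k ∧ (∀ g : G, g ^ 2 = 1) ∧ InjOn x (Iio (2 ^ k)) ∧ ∀ j a, 2 ^ j ∣ a →
      ∃ S : Subgroup G, Nat.card S ≤ 2 ^ (j + 1) ∧
        ∀ i, a ≤ i → i < a + 2 ^ (j + 1) → x a / x i ∈ S := by
  induction k with
  | zero =>
    exact ⟨Unit, inferInstance, inferInstance, fun _ => 1, by simp, fun _ => rfl,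
      fun i hi j hj _ => by simp at hi hj; omega, fun j a _ =>
        ⟨⊥, by rw [Subgroup.card_bot]; exact Nat.one_le_two_pow, fun _ _ _ => by simp⟩⟩
  | succ k ih =>
    obtain ⟨G, _, _, x, h1, h2, h3, h4⟩ := ih
    have sq : ∀ g : G × Multiplicative (ZMod 2), g ^ 2 = 1 := fun g =>
      Prod.ext (h2 g.1) (by
        have : ∀ z : Multiplicative (ZMod 2), z ^ 2 = 1 := by decide
        exact this g.2)
    refine ⟨G × Multiplicative (ZMod 2), inferInstance, inferInstance,
      fun i => (x (i / 2), Multiplicative.ofAdd (i : ZMod 2)), by simp [h1, pow_succ], sq,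
      fun i hi j hj e => ?_, fun j a ha => ?_⟩
    · rw [mem_Iio, pow_succ] at hi hj
      have e1 := h3 (show i / 2 < 2 ^ k by omega) (show j / 2 < 2 ^ k by omega) (congrArg Prod.fst e)
      have e2 : i % 2 = j % 2 :=
        (ZMod.natCast_eq_natCast_iff' i j 2).1 (Multiplicative.ofAdd.injective (congrArg Prod.snd e))
      omega
    · rcases j with _ | j
      · refine ⟨Subgroup.zpowers ((x (a / 2), Multiplicative.ofAdd (a : ZMod 2)) /
          (x ((a + 1) / 2), Multiplicative.ofAdd ((a + 1 : ℕ) : ZMod 2))), ?_, fun i i1 i2 => ?_⟩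
        · rw [Nat.card_zpowers]
          exact orderOf_le_of_pow_eq_one (by norm_num) (sq _)
        · rcases (by omega : i = a ∨ i = a + 1) with rfl | rfl
          · simp
          · exact Subgroup.mem_zpowers _
      · obtain ⟨b, rfl⟩ := ha
        obtain ⟨S, s1, s2⟩ := h4 j (2 ^ j * b) (dvd_mul_right _ _)
        refine ⟨S.prod ⊤, ?_, fun i i1 i2 => ⟨?_, Subgroup.mem_top _⟩⟩
        · rw [Nat.card_congr (S.prodEquiv ⊤).toEquiv, Nat.card_prod, Subgroup.card_top, pow_succ]
          simpa using s1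
        · have e : 2 ^ (j + 1) * b = 2 * (2 ^ j * b) := by ring
          rw [e, pow_succ 2 (j + 1)] at i2
          rw [e] at i1 ⊢
          simp only [Prod.fst_div, Nat.mul_div_cancel_left _ two_pos]
          exact s2 _ (by omega) (by omega)

theorem card_eq {n : ℕ} {pm pw : Fin n → Equiv.Perm (Fin n)} (em ew : G ≃ Fin n) {α β : G → ℕ}
    (ha : ∀ g h, (pm (em g) (ew h) : ℕ) = α (h / g))
    (hb : ∀ g h, (pw (ew h) (em g) : ℕ) = β (h / g)) :
    Nat.card {M : Equiv.Perm (Fin n) // IsStable pm pw M} = Nat.card {μ : G ≃ G // St α β μ} := by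
  refine Nat.card_congr ((em.symm.equivCongr ew.symm).subtypeEquiv fun M => ?_)
  simp only [IsStable, St, ← ha, ← hb, Equiv.equivCongr_apply_apply, Equiv.symm_symm,
    Equiv.apply_symm_apply, Fin.val_fin_lt]
  have e : ∀ h, em (((em.symm.equivCongr ew.symm) M).symm h) = M.symm (ew h) := fun h => by
    simp [Equiv.equivCongr]
  simp only [e]
  constructor
  · intro h g w k1 k2
    exact h ⟨em g, ew w, fun e => by rw [e] at k1; exact k1.false, k1, k2⟩
  · rintro h ⟨m, w, -, k1, k2⟩
    exact h (em.symm m) (ew.symm w) (by simpa using k1) (by simpa using k2)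

theorem main (k : ℕ) : IsGreatest {N : ℤ | ∃ pm pw : Fin (2 ^ k) → Equiv.Perm (Fin (2 ^ k)),
    AbelianSymmetric pm pw ∧ N = Nat.card {M : Equiv.Perm (Fin (2 ^ k)) // IsStable pm pw M}}
    (il k) := by
  have up : ∀ pm pw : Fin (2 ^ k) → Equiv.Perm (Fin (2 ^ k)), AbelianSymmetric pm pw →
      (Nat.card {M : Equiv.Perm (Fin (2 ^ k)) // IsStable pm pw M} : ℤ) ≤ il k := by
    rintro pm pw ⟨G, _, em, ew, h⟩
    have := Finite.of_equiv _ em.symm
    rw [card_eq em ew (α := fun y => pm (em 1) (ew y)) (β := fun y => pw (ew y) (em 1))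
      (fun g w => by rw [← (h 1 (w / g) g).1, one_mul, div_mul_cancel])
      (fun g w => by rw [← (h 1 (w / g) g).2, one_mul, div_mul_cancel])]
    exact st_le (fun y z e => ew.injective ((pm (em 1)).injective (Fin.ext e)))
      (fun y z e => by
        have e1 := (h 1 y y⁻¹).2
        have e2 := (h 1 z z⁻¹).2
        rw [mul_inv_cancel, one_mul] at e1 e2
        exact inv_injective (em.injective ((pw (ew 1)).injective
          (e1.trans ((Fin.ext e).trans e2.symm)))))
      (by rw [Nat.card_congr em, Nat.card_fin])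
  refine ⟨?_, by rintro _ ⟨pm, pw, h, rfl⟩; exact up pm pw h⟩
  obtain ⟨G, _, _, x, h1, -, h3, h4⟩ := ruler k
  have p : 0 < 2 ^ k := by positivity
  obtain ⟨e, he⟩ : ∃ e : Fin (2 ^ k) ≃ G, ∀ i, e i = x i :=
    ⟨Equiv.ofBijective (fun i => x i) ((Nat.bijective_iff_injective_and_card _).2
      ⟨fun i j e => Fin.ext (h3 i.2 j.2 e), by rw [h1, Nat.card_fin]⟩), fun _ => rfl⟩
  have hx : ∀ i (hi : i ≤ 2 ^ k - 1), e.symm (x i) = ⟨i, by omega⟩ := fun i hi => by
    rw [e.symm_apply_eq, he]
  have S : AbelianSymmetric (fun m => e.trans ((Equiv.divRight (e m)).trans e.symm))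
      (fun w => e.trans ((Equiv.divLeft (e w)).trans (e.symm.trans Fin.revPerm))) :=
    ⟨G, inferInstance, e.symm, e.symm, fun g h c => by simp⟩
  refine ⟨_, _, S, le_antisymm ?_ (up _ _ S)⟩
  rw [card_eq e.symm e.symm (α := fun y => e.symm y) (β := fun y => (e.symm y).rev)
    (fun g w => by simp) (fun g w => by simp)]
  refine le_trans ?_ (le_st (x := x) (L := 2 ^ k - 1)
    (fun y => ⟨e.symm y, by omega, by rw [← he, e.apply_symm_apply]⟩)
    (fun i hi => by rw [hx i hi]) fun i hi => by rw [hx i hi, Fin.val_rev]; simp only; omega)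
  rcases k with _ | j
  · exact (F_self (u := 0)).ge
  · have := lower (len (x := x) (L := 2 ^ (j + 1) - 1) (h3.mono fun i hi => by
      rw [mem_Iic] at hi; rw [mem_Iio]; omega)) (fun j a ha => ?_) j ⊤ 0
      (by rw [Subgroup.card_top, h1]) (dvd_zero _) (by omega) le_top
    · rwa [zero_add] at this
    · obtain ⟨S, s1, s2⟩ := h4 j a ha
      refine (Subgroup.card_le_of_le ((Subgroup.closure_le _).2 ?_)).trans s1
      rintro _ ⟨i, ⟨i1, i2⟩, rfl⟩
      have q : 0 < 2 ^ (j + 1) := by positivity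
      have := S.div_mem (s2 i (by omega) (by omega)) (s2 (i - 1) (by omega) (by omega))
      rwa [div_div_div_cancel_left] at this

end Pool.Agent.MP_081e4c_co.AB
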