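import Mathlib.Tactic.Linarith
import Mathlib.Tactic.Ring
import Mathlib.Tactic.Positivity
import Pool.Agent.MP_081e4c_co.AB.Defs

/-!
The counting function of the ruler word and the inequality that carries the induction.
-/

namespace Pool.Agent.MP_081e4c_co.AB

/-- The counting function one level up. -/
def nxt (Z : ℕ → ℤ) (h σ : ℕ) : ℤ :=
  if σ < h then Z σ ^ 2
  else Z (h + σ % h) ^ 2 + ((σ / h : ℕ) - 1) * (Z (2 * h) ^ 2 - Z h ^ 2)

/-- The counting function for groups of order `2 ^ (j + 1)`. -/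
def ZZ : ℕ → ℕ → ℤ
  | 0 => fun σ => σ
  | j + 1 => nxt (ZZ j) (2 ^ j)

structure Good (Z : ℕ → ℤ) (h : ℕ) : Prop where
  pos : 0 < h
  zero : Z 0 = 0
  one : Z 1 = 1
  step : ∀ σ, Z σ + 1 ≤ Z (σ + 1)
  per : ∀ σ, h ≤ σ → Z (σ + h) = Z σ + (Z (2 * h) - Z h)

namespace Good

variable {Z : ℕ → ℤ} {h : ℕ} (g : Good Z h)
include g

theorem mono {a b : ℕ} (k : a ≤ b) : Z a ≤ Z b := by
  induction k with
  | refl => exact le_rfl
  | step _ ih => exact ih.trans ((Int.le_add_one le_rfl).trans (g.step _))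

theorem nonneg (a : ℕ) : 0 ≤ Z a := g.zero ▸ g.mono (Nat.zero_le a)

theorem per' {σ : ℕ} (k : h ≤ σ) :
    nxt Z h (σ + h) = nxt Z h σ + (Z (2 * h) ^ 2 - Z h ^ 2) := by
  rw [nxt, nxt, if_neg (by omega), if_neg (by omega), Nat.add_mod_right, Nat.add_div_right _ g.pos]
  push_cast
  ring

theorem low {σ : ℕ} (k : σ ≤ 2 * h) : nxt Z h σ = Z σ ^ 2 := by
  have key : ∀ τ, τ < 2 * h → nxt Z h τ = Z τ ^ 2 := fun τ k => by
    rw [nxt]
    split_ifs with c
    · rfl
    · obtain ⟨r, rfl⟩ := Nat.exists_eq_add_of_le (not_lt.1 c)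
      have hr : r < h := by omega
      rw [Nat.add_mod_left, Nat.mod_eq_of_lt hr, Nat.add_div_left _ g.pos, Nat.div_eq_of_lt hr]
      simp
  rcases k.lt_or_eq with k | rfl
  · exact key σ k
  · have := g.pos
    rw [two_mul, g.per' le_rfl, key h (by omega), ← two_mul]
    ring

theorem next : Good (nxt Z h) (2 * h) := by
  have h0 := g.pos
  refine ⟨by omega, by rw [g.low (by omega), g.zero]; rfl, by rw [g.low (by omega), g.one]; rfl,
    fun σ => ?_, fun σ k => ?_⟩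
  · induction σ using Nat.strong_induction_on with
    | _ σ ih =>
      by_cases c : σ < 2 * h
      · rw [g.low c.le, g.low c]
        nlinarith [g.step σ, g.nonneg σ]
      · obtain ⟨r, rfl⟩ : ∃ r, σ = r + h := ⟨σ - h, by omega⟩
        rw [show r + h + 1 = r + 1 + h by ring, g.per' (by omega), g.per' (by omega)]
        linarith [ih r (by omega)]
  · rw [show σ + 2 * h = σ + h + h by ring, show 2 * (2 * h) = 2 * h + h + h by ring,
      g.per' (by omega), g.per' (by omega), g.per' (by omega), g.per' (σ := 2 * h) (by omega)]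
    ring

end Good

theorem alg0 {a z y : ℤ} (h1 : a ≤ z) (h2 : z ≤ y) :
    z ^ 2 - a ^ 2 ≤ y ^ 2 - (a + (y - z)) ^ 2 := by
  nlinarith [mul_nonneg (sub_nonneg.2 h1) (sub_nonneg.2 h2)]

theorem alg1 {a z c y A g : ℤ} (a0 : 0 ≤ a) (ac : a ≤ c) (az : a ≤ z) (zy : z ≤ y) (A0 : 0 ≤ A)
    (Ay : A ≤ y) (g0 : 0 ≤ g) (hb : z - a ≤ y - A + g) :
    z ^ 2 - a ^ 2 ≤ (c + g) ^ 2 + (y ^ 2 - c ^ 2) - A ^ 2 := by
  have c0 : 0 ≤ c := a0.trans ac
  by_cases k : A ≤ c + g
  · have e := alg0 az zy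
    by_cases k' : A ≤ g
    · nlinarith [sq_nonneg (a + (y - z)), mul_nonneg c0 g0, pow_le_pow_left₀ A0 k' 2]
    · have := pow_le_pow_left₀ (by linarith : 0 ≤ A - g) (by linarith : A - g ≤ a + (y - z)) 2
      nlinarith [mul_nonneg g0 (sub_nonneg.2 k)]
  · have e1 : (z - a) * (2 * a + (z - a)) ≤ (y - A + g) * (2 * c + (y - A + g)) :=
      mul_le_mul hb (by linarith) (by linarith) (by linarith)
    nlinarith [mul_nonneg (by linarith : 0 ≤ A - c - g) (sub_nonneg.2 Ay)]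

theorem alg2 {a z c y A g : ℤ} (a0 : 0 ≤ a) (az : a ≤ z) (zy : z ≤ y) (c0 : 0 ≤ c) (cA : c ≤ A)
    (Ay : A ≤ y) (g0 : 0 ≤ g) (hb : z - a ≤ y - A + (g + (y - c))) :
    z ^ 2 - a ^ 2 ≤ (c + g) ^ 2 + (y ^ 2 - c ^ 2) + (y ^ 2 - c ^ 2) - A ^ 2 := by
  have e := alg0 az zy
  have w0 : 0 ≤ a + (y - z) := by linarith
  have hw : c - (y - A) - g ≤ a + (y - z) := by linarith
  generalize a + (y - z) = w at e w0 hw
  have e1 : c ^ 2 - w ^ 2 ≤ 2 * c * (y - A + g) := by
    by_cases k : c ≤ w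
    · nlinarith [mul_nonneg c0 (by linarith : 0 ≤ y - A + g), pow_le_pow_left₀ c0 k 2]
    · have : (c - w) * (c + w) ≤ (y - A + g) * (2 * c) :=
        mul_le_mul (by linarith) (by linarith) (by linarith) (by linarith)
      linarith
  nlinarith [mul_nonneg (sub_nonneg.2 Ay) (by linarith : 0 ≤ y + A - 2 * c), sq_nonneg g]

theorem key {Z : ℕ → ℤ} {h : ℕ} (g : Good Z h) {ω T : ℕ} {a z : ℤ} (h1 : ω ≤ h)
    (h2 : ω + T ≤ 2 * h) (a0 : 0 ≤ a) (az : a ≤ z) (ha : a ≤ Z ω) (hz : z ≤ Z (ω + T))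
    (hb : ∀ σ, ω ≤ σ → z - a ≤ Z (σ + T) - Z σ) (σ : ℕ) :
    ω ≤ σ → z ^ 2 - a ^ 2 ≤ nxt Z h (σ + T) - nxt Z h σ := by
  have h0 := g.pos
  induction σ using Nat.strong_induction_on with
  | _ σ ih =>
    intro k
    by_cases c : σ < 2 * h
    · have b := hb σ k
      have aA := ha.trans (g.mono k)
      rw [g.low c.le]
      by_cases c1 : σ + T ≤ 2 * h
      · rw [g.low c1]
        have : (z - a) * (2 * a + (z - a)) ≤ (Z (σ + T) - Z σ) * (2 * Z σ + (Z (σ + T) - Z σ)) :=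
          mul_le_mul b (by linarith) (by linarith) (by linarith)
        linarith
      · obtain ⟨r, hr⟩ : ∃ r, σ + T = h + r + h := ⟨σ + T - 2 * h, by omega⟩
        have zy := hz.trans (g.mono h2)
        have Ay := g.mono c.le
        rw [hr, g.per (h + r) (by omega)] at b
        rw [hr, g.per' (by omega)]
        by_cases c2 : r ≤ h
        · rw [g.low (by omega)]
          have := alg1 (g := Z (h + r) - Z h) a0 (ha.trans (g.mono h1)) az zy (g.nonneg σ) Ay
            (sub_nonneg.2 (g.mono (by omega))) (by linarith)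
          rwa [add_sub_cancel] at this
        · obtain ⟨s, rfl⟩ : ∃ s, r = s + h := ⟨r - h, by omega⟩
          rw [← add_assoc, g.per (h + s) (by omega)] at b
          rw [← add_assoc, g.per' (by omega), g.low (by omega)]
          have := alg2 (g := Z (h + s) - Z h) a0 az zy (g.nonneg h) (g.mono (by omega)) Ay
            (sub_nonneg.2 (g.mono (by omega))) (by linarith)
          rwa [add_sub_cancel] at this
    · obtain ⟨r, rfl⟩ : ∃ r, σ = r + h := ⟨σ - h, by omega⟩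
      rw [show r + h + T = r + T + h by ring, g.per' (by omega), g.per' (by omega)]
      linarith [ih r (by omega) (by omega)]

theorem good (j : ℕ) : Good (ZZ j) (2 ^ j) := by
  induction j with
  | zero =>
    refine ⟨by norm_num, rfl, rfl, fun σ => ?_, fun σ _ => ?_⟩ <;> simp [ZZ]
  | succ j ih => rw [pow_succ']; exact ih.next

theorem ZZ_il (j : ℕ) : ZZ j (2 ^ j) = il j ^ 2 ∧ ZZ j (2 * 2 ^ j) = il (j + 1) := by
  induction j with
  | zero => simp [ZZ, il]
  | succ j ih =>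
    have g := good j
    have p := g.pos
    rw [ZZ, pow_succ', show 2 * (2 * 2 ^ j) = 2 * 2 ^ j + 2 ^ j + 2 ^ j by ring,
      g.per' (by omega), g.per' (by omega), g.low le_rfl, ih.1, ih.2, il]
    exact ⟨rfl, by ring⟩

end Pool.Agent.MP_081e4c_co.AB
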